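import Mathlib

set_option autoImplicit false

/-!
# H43B: complete bipartite subgraphs of dense bipartite graphs, the localisation step

`R` is a relation between the finite sets `X` and `Y`, of density at least `p`. The step lemma: there are
`b` elements `B` of `Y` and a set `X'` of about `p^b |X|` common neighbours of `B`, each of which has at least
`p (1 - 1/b) |Y|` neighbours in `Y`.
-/

namespace H43B

open Finset

open Classical in
/-- The number of neighbours of `x` in `Y`. -/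
noncomputable def dg {α β : Type*} (R : α → β → Prop) (Y : Finset β) (x : α) : ℕ :=
  (Y.filter (fun y => R x y)).card

/-- There are `s` elements of `X` and `t` elements of `Y`, completely joined. -/
def Has {α β : Type*} (R : α → β → Prop) (X : Finset α) (Y : Finset β) (s t : ℕ) : Prop :=
  ∃ A ⊆ X, ∃ B ⊆ Y, A.card = s ∧ B.card = t ∧ ∀ a ∈ A, ∀ b ∈ B, R a b

theorem dg_le {α β : Type*} (R : α → β → Prop) (Y : Finset β) (x : α) : dg R Y x ≤ Y.card := by
  classical
  unfold dg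
  exact Finset.card_filter_le _ _

/-- double counting of edges -/
theorem dg_swap {α β : Type*} (R : α → β → Prop) (X : Finset α) (Y : Finset β) :
    ∑ x ∈ X, dg R Y x = ∑ y ∈ Y, dg (fun y x => R x y) X y := by
  classical
  have h := Finset.sum_card_bipartiteAbove_eq_sum_card_bipartiteBelow (s := X) (t := Y) R
  unfold dg
  unfold Finset.bipartiteAbove Finset.bipartiteBelow at h
  exact h

/-- double counting of stars -/
theorem stars {α β : Type*} (R : α → β → Prop) (H : Finset α) (Y : Finset β) (b : ℕ)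
    [DecidableRel fun (B : Finset β) (x : α) => ∀ y ∈ B, R x y] :
    ∑ B ∈ Y.powersetCard b, (H.filter (fun x => ∀ y ∈ B, R x y)).card =
      ∑ x ∈ H, (dg R Y x).choose b := by
  classical
  have h := Finset.sum_card_bipartiteAbove_eq_sum_card_bipartiteBelow (s := Y.powersetCard b) (t := H)
    (fun (B : Finset β) (x : α) => ∀ y ∈ B, R x y)
  unfold Finset.bipartiteAbove Finset.bipartiteBelow at h
  rw [h]
  refine Finset.sum_congr rfl fun x _ => ?_
  unfold dg
  rw [← Finset.card_powersetCard]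
  congr 1
  ext B
  rw [Finset.mem_filter, Finset.mem_powersetCard, Finset.mem_powersetCard]
  constructor
  · rintro ⟨⟨h1, h2⟩, h3⟩
    refine ⟨fun y hy => ?_, h2⟩
    rw [Finset.mem_filter]
    exact ⟨h1 hy, h3 y hy⟩
  · rintro ⟨h1, h2⟩
    refine ⟨⟨fun y hy => (Finset.mem_filter.1 (h1 hy)).1, h2⟩, fun y hy => (Finset.mem_filter.1 (h1 hy)).2⟩

/-- falling factorials against powers -/
theorem desc_ge (D b : ℕ) (hb : b ≤ D) :
    (D : ℝ) ^ b * (1 - (b : ℝ) ^ 2 / (2 * D)) ≤ (D.descFactorial b : ℝ) := by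
  induction b with
  | zero => simp
  | succ b ih =>
    have hD : (0 : ℝ) < D := by
      have : 0 < D := by omega
      exact_mod_cast this
    have ih' := ih (by omega)
    rw [Nat.descFactorial_succ, Nat.cast_mul, Nat.cast_sub (by omega)]
    have hDb : (0 : ℝ) ≤ (D : ℝ) - b := by
      have : (b : ℝ) ≤ D := by exact_mod_cast (by omega : b ≤ D)
      linarith
    have h1 : ((D : ℝ) - b) * ((D : ℝ) ^ b * (1 - (b : ℝ) ^ 2 / (2 * D))) ≤
        ((D : ℝ) - b) * (D.descFactorial b : ℝ) := mul_le_mul_of_nonneg_left ih' hDb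
    refine le_trans ?_ h1
    have e1 : ((D : ℝ) - b) * ((D : ℝ) ^ b * (1 - (b : ℝ) ^ 2 / (2 * D))) =
        (D : ℝ) ^ (b + 1) * ((1 - (b : ℝ) / D) * (1 - (b : ℝ) ^ 2 / (2 * D))) := by
      rw [pow_succ]
      field_simp
      ring
    rw [e1]
    refine mul_le_mul_of_nonneg_left ?_ (by positivity)
    have e2 : ((b + 1 : ℕ) : ℝ) ^ 2 / (2 * D) = (b : ℝ) ^ 2 / (2 * D) + (b : ℝ) / D + 1 / (2 * D) := by
      push_cast
      field_simp
      ring
    rw [e2]
    have h3 : 0 ≤ (b : ℝ) / D := by positivity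
    have h4 : 0 ≤ (b : ℝ) ^ 2 / (2 * D) := by positivity
    have h5 : 0 ≤ 1 / (2 * (D : ℝ)) := by positivity
    nlinarith [mul_nonneg h3 h4]

/-- `choose D b / choose M b ≥ (D / M)^b (1 - b^2 / (2 D))` -/
theorem choose_ge (D M b : ℕ) (hb : b ≤ D) (hp : 0 ≤ 1 - (b : ℝ) ^ 2 / (2 * D)) :
    (M.choose b : ℝ) * ((D : ℝ) ^ b * (1 - (b : ℝ) ^ 2 / (2 * D))) ≤
      (D.choose b : ℝ) * (M : ℝ) ^ b := by
  have h1 := desc_ge D b hb
  have h2 : (M.descFactorial b : ℝ) ≤ (M : ℝ) ^ b := by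
    exact_mod_cast Nat.descFactorial_le_pow M b
  have h3 : (D.descFactorial b : ℝ) = (b.factorial : ℝ) * (D.choose b : ℝ) := by
    exact_mod_cast Nat.descFactorial_eq_factorial_mul_choose D b
  have h4 : (M.descFactorial b : ℝ) = (b.factorial : ℝ) * (M.choose b : ℝ) := by
    exact_mod_cast Nat.descFactorial_eq_factorial_mul_choose M b
  have hf : (0 : ℝ) < (b.factorial : ℝ) := by exact_mod_cast Nat.factorial_pos b
  have h5 : 0 ≤ (D : ℝ) ^ b * (1 - (b : ℝ) ^ 2 / (2 * D)) := mul_nonneg (by positivity) hp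
  have h6 : (M.descFactorial b : ℝ) * ((D : ℝ) ^ b * (1 - (b : ℝ) ^ 2 / (2 * D))) ≤
      (M : ℝ) ^ b * (D.descFactorial b : ℝ) :=
    mul_le_mul h2 h1 h5 (by positivity)
  rw [h3, h4] at h6
  refine le_of_mul_le_mul_left ?_ hf
  linarith

/-- The localisation step. -/
theorem step0 {α β : Type*} (R : α → β → Prop) (X : Finset α) (Y : Finset β) (p : ℝ) (hp : 0 < p)
    (hp1 : p ≤ 1) (b : ℕ) (hb : 2 ≤ b) (hM : (b : ℝ) ^ 2 ≤ p * (Y.card : ℝ))
    (hd : p * (X.card : ℝ) * (Y.card : ℝ) ≤ ∑ x ∈ X, (dg R Y x : ℝ)) :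
    ∃ B ⊆ Y, B.card = b ∧ ∃ X' ⊆ X, (∀ x ∈ X', ∀ y ∈ B, R x y) ∧
      (1 - (b : ℝ) ^ 2 / (p * (Y.card : ℝ))) * p ^ b * (X.card : ℝ) ≤ (X'.card : ℝ) ∧
      ∀ x ∈ X', p * (1 - 1 / (b : ℝ)) * (Y.card : ℝ) ≤ (dg R Y x : ℝ) := by
  classical
  obtain ⟨M, hMdef⟩ : ∃ M : ℕ, M = Y.card := ⟨_, rfl⟩
  rw [← hMdef] at hM hd ⊢
  have hbR : (2 : ℝ) ≤ (b : ℝ) := by exact_mod_cast hb
  have hb0 : (0 : ℝ) < (b : ℝ) := by linarith
  have hpM : 0 < p * (M : ℝ) := lt_of_lt_of_le (by positivity) hM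
  have hM0 : (0 : ℝ) < (M : ℝ) := by
    by_contra hcon
    rw [not_lt] at hcon
    nlinarith
  have hbM : b ≤ M := by
    have h1 : (b : ℝ) ≤ (M : ℝ) := by nlinarith
    exact_mod_cast h1
  obtain ⟨ρ, hρ⟩ : ∃ ρ : ℝ, ρ = (b : ℝ) ^ 2 / (p * (M : ℝ)) := ⟨_, rfl⟩
  have hρ1 : ρ ≤ 1 := by
    rw [hρ, div_le_one hpM]
    exact hM
  have hρ0 : 0 ≤ ρ := by
    rw [hρ]
    positivity
  rw [← hρ]
  obtain ⟨H, hH⟩ : ∃ H : Finset α, H = X.filter
    (fun x => p * (1 - 1 / (b : ℝ)) * (M : ℝ) ≤ (dg R Y x : ℝ)) := ⟨_, rfl⟩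
  -- the sum of the b-th powers over H
  have h1 : (X.card : ℝ) ≤ ∑ x ∈ H, ((dg R Y x : ℝ) / (p * M)) ^ b := by
    have h2 : ∑ x ∈ X, (1 + (b : ℝ) * ((dg R Y x : ℝ) / (p * M) - 1)) ≤
        ∑ x ∈ H, ((dg R Y x : ℝ) / (p * M)) ^ b := by
      rw [hH, Finset.sum_filter]
      refine Finset.sum_le_sum fun x _ => ?_
      split_ifs with hx
      · have h3 : (-2 : ℝ) ≤ (dg R Y x : ℝ) / (p * M) - 1 := by
          have : 0 ≤ (dg R Y x : ℝ) / (p * M) := by positivity
          linarith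
        have h4 := one_add_mul_le_pow h3 b
        have e1 : 1 + ((dg R Y x : ℝ) / (p * M) - 1) = (dg R Y x : ℝ) / (p * M) := by ring
        rw [e1] at h4
        exact h4
      · rw [not_le] at hx
        have h3 : (dg R Y x : ℝ) / (p * M) < 1 - 1 / (b : ℝ) := by
          rw [div_lt_iff₀ hpM]
          linarith
        have h4 : (b : ℝ) * ((dg R Y x : ℝ) / (p * M) - 1) < (b : ℝ) * (-(1 / (b : ℝ))) :=
          mul_lt_mul_of_pos_left (by linarith) hb0
        have e1 : (b : ℝ) * (-(1 / (b : ℝ))) = -1 := by field_simp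
        rw [e1] at h4
        linarith
    refine le_trans ?_ h2
    rw [Finset.sum_add_distrib, ← Finset.mul_sum, Finset.sum_sub_distrib, Finset.sum_const,
      nsmul_eq_mul, mul_one, ← Finset.sum_div]
    have h5 : (X.card : ℝ) ≤ (∑ x ∈ X, (dg R Y x : ℝ)) / (p * M) := by
      rw [le_div_iff₀ hpM]
      linarith
    nlinarith
  -- lower bound for the number of stars
  have h6 : ∀ x ∈ H, (M.choose b : ℝ) * (1 - ρ) * p ^ b * ((dg R Y x : ℝ) / (p * M)) ^ b ≤
      ((dg R Y x).choose b : ℝ) := by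
    intro x hx
    rw [hH, Finset.mem_filter] at hx
    have hDge : p * (M : ℝ) / 2 ≤ (dg R Y x : ℝ) := by
      refine le_trans ?_ hx.2
      have h7 : 1 / (b : ℝ) ≤ 1 / 2 := one_div_le_one_div_of_le (by norm_num) hbR
      nlinarith
    have hD0 : (0 : ℝ) < (dg R Y x : ℝ) := by linarith
    have hbD : b ≤ dg R Y x := by
      have h8 : (b : ℝ) ≤ (dg R Y x : ℝ) := by nlinarith
      exact_mod_cast h8
    have h9 : (b : ℝ) ^ 2 / (2 * (dg R Y x : ℝ)) ≤ ρ := by
      rw [hρ]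
      apply div_le_div_of_nonneg_left (by positivity) hpM
      linarith
    have h10 := choose_ge (dg R Y x) M b hbD (by linarith)
    have h11 : (M.choose b : ℝ) * ((dg R Y x : ℝ) ^ b * (1 - ρ)) ≤
        ((dg R Y x).choose b : ℝ) * (M : ℝ) ^ b := by
      refine le_trans ?_ h10
      refine mul_le_mul_of_nonneg_left ?_ (by positivity)
      refine mul_le_mul_of_nonneg_left ?_ (by positivity)
      linarith
    have e2 : (M.choose b : ℝ) * (1 - ρ) * p ^ b * ((dg R Y x : ℝ) / (p * M)) ^ b =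
        (M.choose b : ℝ) * ((dg R Y x : ℝ) ^ b * (1 - ρ)) / (M : ℝ) ^ b := by
      rw [div_pow, mul_pow]
      field_simp
    rw [e2, div_le_iff₀ (by positivity)]
    exact h11
  -- averaging
  have h12 : ∑ B ∈ Y.powersetCard b, ((1 - ρ) * p ^ b * (X.card : ℝ)) ≤
      ∑ B ∈ Y.powersetCard b, ((H.filter (fun x => ∀ y ∈ B, R x y)).card : ℝ) := by
    rw [← Nat.cast_sum, stars R H Y b, Nat.cast_sum, Finset.sum_const, Finset.card_powersetCard,
      nsmul_eq_mul, ← hMdef]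
    refine le_trans ?_ (Finset.sum_le_sum h6)
    rw [← Finset.mul_sum]
    have h13 : 0 ≤ (M.choose b : ℝ) * (1 - ρ) * p ^ b :=
      mul_nonneg (mul_nonneg (by positivity) (by linarith)) (by positivity)
    have h14 := mul_le_mul_of_nonneg_left h1 h13
    linarith
  have hne : (Y.powersetCard b).Nonempty := by
    rw [Finset.powersetCard_nonempty]
    omega
  obtain ⟨B, hB, hBle⟩ := Finset.exists_le_of_sum_le hne h12
  rw [Finset.mem_powersetCard] at hB
  refine ⟨B, hB.1, hB.2, H.filter (fun x => ∀ y ∈ B, R x y), ?_, ?_, hBle, ?_⟩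
  · intro x hx
    rw [Finset.mem_filter, hH, Finset.mem_filter] at hx
    exact hx.1.1
  · intro x hx
    exact (Finset.mem_filter.1 hx).2
  · intro x hx
    rw [Finset.mem_filter, hH, Finset.mem_filter] at hx
    exact hx.1.2

end H43B
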