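import Mathlib
import Pool.Agent.Lib.H43B.Step

set_option autoImplicit false

/-!
# H43B: iteration of the localisation step

`K_{s,t}` is sought in `X × Y` (`s` elements from `X`, `t` from `Y`), density at least `p ≤ 1/2`. The quantities
`|X| p^t` and `|Y| p^s` hardly decrease when `t` is replaced by `t'` with `s, t'` much smaller than `t`
(`step1`). The pairs `(s, t)`, `s ≈ 4 log t`, are treated by induction (`claim`).
-/

namespace H43B

open Finset

theorem Has.transpose {α β : Type*} {R : α → β → Prop} {X : Finset α} {Y : Finset β} {s t : ℕ}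
    (h : Has (fun (y : β) (x : α) => R x y) Y X t s) : Has R X Y s t := by
  obtain ⟨B, hB, A, hA, h1, h2, h3⟩ := h
  exact ⟨A, hA, B, hB, h2, h1, fun a ha b hb => h3 b hb a ha⟩

theorem Has.mono {α β : Type*} {R : α → β → Prop} {X : Finset α} {Y : Finset β} {s t s' t' : ℕ}
    (h : Has R X Y s t) (hs : s' ≤ s) (ht : t' ≤ t) : Has R X Y s' t' := by
  obtain ⟨A, hA, B, hB, h1, h2, h3⟩ := h
  obtain ⟨A', hA', h4⟩ := Finset.exists_subset_card_eq (show s' ≤ A.card by omega)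
  obtain ⟨B', hB', h5⟩ := Finset.exists_subset_card_eq (show t' ≤ B.card by omega)
  exact ⟨A', hA'.trans hA, B', hB'.trans hB, h4, h5, fun a ha b hb => h3 a (hA' ha) b (hB' hb)⟩

/-- `(1 - 1/b) (1 - 2/b)^n ≥ 1 - (2n+1)/b` -/
theorem loss (b : ℝ) (hb : 2 ≤ b) (n : ℕ) :
    1 - (2 * (n : ℝ) + 1) / b ≤ (1 - 1 / b) * (1 - 2 / b) ^ n := by
  have hb0 : 0 < b := by linarith
  have h1 : -2 ≤ -(2 / b) := by
    have : 2 / b ≤ 1 := by
      rw [div_le_one hb0]
      exact hb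
    linarith
  have h2 := one_add_mul_le_pow h1 n
  have e1 : 1 + -(2 / b) = 1 - 2 / b := by ring
  rw [e1] at h2
  have h3 : 0 ≤ 1 - 1 / b := by
    have : 1 / b ≤ 1 := by
      rw [div_le_one hb0]
      linarith
    linarith
  refine le_trans ?_ (mul_le_mul_of_nonneg_left h2 h3)
  have h4 : 0 ≤ 1 / b * ((n : ℝ) * (2 / b)) := by positivity
  have e2 : (2 * (n : ℝ) + 1) / b = 1 / b + (n : ℝ) * (2 / b) := by ring
  rw [e2]
  nlinarith

/-- The localisation step, in terms of `|X| p^t` and `|Y| p^s`. -/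
theorem step1 {α β : Type*} (R : α → β → Prop) (X : Finset α) (Y : Finset β) (p : ℝ) (hp : 0 < p)
    (hp1 : p ≤ 1) (b : ℕ) (hb : 2 ≤ b) (hM : (b : ℝ) ^ 3 ≤ p * (Y.card : ℝ))
    (hd : p * (X.card : ℝ) * (Y.card : ℝ) ≤ ∑ x ∈ X, (dg R Y x : ℝ)) :
    ∃ X' : Finset α, ∃ Y' : Finset β,
      p * (1 - 2 / (b : ℝ)) * (X'.card : ℝ) * (Y'.card : ℝ) ≤ ∑ x ∈ X', (dg R Y' x : ℝ) ∧
      (∀ n : ℕ, (1 - 1 / (b : ℝ)) * (1 - 2 / (b : ℝ)) ^ n * ((X.card : ℝ) * p ^ (n + b)) ≤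
        (X'.card : ℝ) * (p * (1 - 2 / (b : ℝ))) ^ n) ∧
      (∀ n : ℕ, (1 - 1 / (b : ℝ)) * (1 - 2 / (b : ℝ)) ^ n * ((Y.card : ℝ) * p ^ n) ≤
        (Y'.card : ℝ) * (p * (1 - 2 / (b : ℝ))) ^ n) ∧
      ∀ s t : ℕ, Has R X' Y' s t → Has R X Y s (t + b) := by
  classical
  have hbR : (2 : ℝ) ≤ (b : ℝ) := by exact_mod_cast hb
  have hb0 : (0 : ℝ) < (b : ℝ) := by linarith
  have hpM : 0 < p * (Y.card : ℝ) := lt_of_lt_of_le (by positivity) hM
  have hM2 : (b : ℝ) ^ 2 ≤ p * (Y.card : ℝ) := by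
    refine le_trans ?_ hM
    nlinarith [sq_nonneg (b : ℝ)]
  obtain ⟨B, hBY, hBb, X', hX', hXB, hX1, hX2⟩ := step0 R X Y p hp hp1 b hb hM2 hd
  have hYcard : ((Y \ B).card : ℝ) = (Y.card : ℝ) - b := by
    rw [Finset.card_sdiff_of_subset hBY, hBb, Nat.cast_sub]
    rw [← hBb]
    exact Finset.card_le_card hBY
  have h2b : 0 ≤ 1 - 2 / (b : ℝ) := by
    have : 2 / (b : ℝ) ≤ 1 := by
      rw [div_le_one hb0]
      exact hbR
    linarith
  have h1b : 0 ≤ 1 - 1 / (b : ℝ) := by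
    have : 1 / (b : ℝ) ≤ 1 := by
      rw [div_le_one hb0]
      linarith
    linarith
  refine ⟨X', Y \ B, ?_, ?_, ?_, ?_⟩
  · -- density
    have h1 : ∀ x ∈ X', p * (1 - 2 / (b : ℝ)) * ((Y \ B).card : ℝ) ≤ (dg R (Y \ B) x : ℝ) := by
      intro x hx
      have h2 := hX2 x hx
      have h3 : dg R Y x ≤ dg R (Y \ B) x + b := by
        unfold dg
        rw [← hBb]
        refine le_trans ?_ (Finset.card_union_le _ _)
        apply Finset.card_le_card
        intro y hy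
        rw [Finset.mem_filter] at hy
        rw [Finset.mem_union, Finset.mem_filter, Finset.mem_sdiff]
        by_cases hyB : y ∈ B
        · exact Or.inr hyB
        · exact Or.inl ⟨⟨hy.1, hyB⟩, hy.2⟩
      have h4 : (dg R Y x : ℝ) ≤ (dg R (Y \ B) x : ℝ) + b := by exact_mod_cast h3
      have h5 : (b : ℝ) ≤ p * (Y.card : ℝ) * (1 / b) := by
        rw [mul_one_div, le_div_iff₀ hb0]
        nlinarith
      have h6 : p * (1 - 2 / (b : ℝ)) * ((Y \ B).card : ℝ) ≤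
          p * (1 - 2 / (b : ℝ)) * (Y.card : ℝ) := by
        refine mul_le_mul_of_nonneg_left ?_ (mul_nonneg hp.le h2b)
        rw [hYcard]
        linarith
      have e1 : p * (1 - 2 / (b : ℝ)) * (Y.card : ℝ) =
          p * (1 - 1 / (b : ℝ)) * (Y.card : ℝ) - p * (Y.card : ℝ) * (1 / b) := by ring
      linarith
    have h7 := Finset.sum_le_sum h1
    rw [Finset.sum_const, nsmul_eq_mul] at h7
    refine le_trans (le_of_eq ?_) h7
    ring
  · -- size of X'
    intro n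
    have h1 : (b : ℝ) ^ 2 / (p * (Y.card : ℝ)) ≤ 1 / (b : ℝ) := by
      rw [div_le_div_iff₀ hpM hb0]
      nlinarith
    have h2 : (1 - 1 / (b : ℝ)) * (p ^ b * (X.card : ℝ)) ≤ (X'.card : ℝ) := by
      refine le_trans ?_ hX1
      rw [mul_assoc]
      refine mul_le_mul_of_nonneg_right ?_ (by positivity)
      linarith
    have h3 : 0 ≤ (p * (1 - 2 / (b : ℝ))) ^ n := pow_nonneg (mul_nonneg hp.le h2b) n
    refine le_trans (le_of_eq ?_) (mul_le_mul_of_nonneg_right h2 h3)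
    rw [mul_pow, pow_add]
    ring
  · -- size of Y'
    intro n
    have h1 : (1 - 1 / (b : ℝ)) * (Y.card : ℝ) ≤ ((Y \ B).card : ℝ) := by
      rw [hYcard]
      have h5 : (b : ℝ) ≤ (Y.card : ℝ) * (1 / b) := by
        rw [mul_one_div, le_div_iff₀ hb0]
        have h6 : p * (Y.card : ℝ) ≤ (Y.card : ℝ) := mul_le_of_le_one_left (by positivity) hp1
        nlinarith
      linarith
    have h3 : 0 ≤ (p * (1 - 2 / (b : ℝ))) ^ n := pow_nonneg (mul_nonneg hp.le h2b) n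
    refine le_trans (le_of_eq ?_) (mul_le_mul_of_nonneg_right h1 h3)
    rw [mul_pow]
    ring
  · -- gluing
    rintro s t ⟨A, hA, B', hB', h1, h2, h3⟩
    have hdis : Disjoint B' B := by
      rw [Finset.disjoint_left]
      intro y hy hyB
      exact (Finset.mem_sdiff.1 (hB' hy)).2 hyB
    refine ⟨A, hA.trans hX', B' ∪ B, ?_, h1, ?_, ?_⟩
    · refine Finset.union_subset (hB'.trans Finset.sdiff_subset) hBY
    · rw [Finset.card_union_of_disjoint hdis, h2, hBb]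
    · intro a ha y hy
      rw [Finset.mem_union] at hy
      rcases hy with hy | hy
      · exact h3 a ha y hy
      · exact hXB a (hA ha) y hy

/-- Base case: constant sizes. -/
theorem base {α β : Type*} (R : α → β → Prop) (X : Finset α) (Y : Finset β) (p : ℝ) (hp : 0 < p)
    (hp1 : p ≤ 1) (s t : ℕ) (ht : 2 ≤ t) (hpY : 2 * (t : ℝ) ^ 2 ≤ p * (Y.card : ℝ))
    (hd : p * (X.card : ℝ) * (Y.card : ℝ) ≤ ∑ x ∈ X, (dg R Y x : ℝ))
    (hX : 2 * (s : ℝ) ≤ (X.card : ℝ) * p ^ t) : Has R X Y s t := by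
  classical
  have htR : (2 : ℝ) ≤ (t : ℝ) := by exact_mod_cast ht
  have hpM : 0 < p * (Y.card : ℝ) := lt_of_lt_of_le (by positivity) hpY
  obtain ⟨B, hBY, hBb, X', hX', hXB, hX1, -⟩ := step0 R X Y p hp hp1 t ht
    (by nlinarith [sq_nonneg (t : ℝ)]) hd
  have h3 : (t : ℝ) ^ 2 / (p * (Y.card : ℝ)) ≤ 1 / 2 := by
    rw [div_le_div_iff₀ hpM (by norm_num)]
    linarith
  have h4 : (s : ℝ) ≤ (X'.card : ℝ) := by
    refine le_trans ?_ hX1
    have h5 : 0 ≤ p ^ t * (X.card : ℝ) := by positivity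
    have h6 : (1 / 2 : ℝ) * (p ^ t * (X.card : ℝ)) ≤
        (1 - (t : ℝ) ^ 2 / (p * (Y.card : ℝ))) * (p ^ t * (X.card : ℝ)) :=
      mul_le_mul_of_nonneg_right (by linarith) h5
    linarith
  have h7 : s ≤ X'.card := by exact_mod_cast h4
  obtain ⟨A, hA, hAc⟩ := Finset.exists_subset_card_eq h7
  exact ⟨A, hA.trans hX', B, hBY, hAc, hBb, fun a ha y hy => hXB a (hA ha) y hy⟩

/-- arithmetic of the iteration -/
theorem clog_facts (t : ℕ) (ht : 4096 < t) :
    t ≤ 2 ^ (Nat.clog 2 t) ∧ 20 * (Nat.clog 2 t) ^ 2 ≤ t ∧ 13 ≤ Nat.clog 2 t := by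
  obtain ⟨j, hj⟩ : ∃ j, j = Nat.clog 2 t := ⟨_, rfl⟩
  have h1 : t ≤ 2 ^ j := by
    rw [hj]
    exact Nat.le_pow_clog (by norm_num) _
  have h2 : 13 ≤ j := by
    by_contra hcon
    have h3 : j ≤ 12 := by omega
    have h4 : 2 ^ j ≤ 2 ^ 12 := Nat.pow_le_pow_right (by norm_num) h3
    norm_num at h4
    omega
  have h5 : 2 ^ (j - 1) < t := by
    rw [hj]
    exact Nat.pow_pred_clog_lt_self (by norm_num) (by omega)
  rw [← hj]
  refine ⟨h1, ?_, h2⟩
  obtain ⟨i, rfl⟩ : ∃ i, j = i + 13 := ⟨j - 13, by omega⟩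
  have h6 : 2 ^ (i + 13 - 1) = 2 ^ (i + 12) := by
    congr 1
  rw [h6] at h5
  have h7 : 20 * (i + 13) ^ 2 ≤ 2 ^ (i + 12) := by
    clear h6 h5 h2 h1 hj
    induction i with
    | zero => norm_num
    | succ i ih =>
      have e1 : 2 ^ (i + 1 + 12) = 2 * 2 ^ (i + 12) := by
        rw [show i + 1 + 12 = (i + 12) + 1 by ring, pow_succ]
        ring
      rw [e1]
      have e2 : 20 * (i + 1 + 13) ^ 2 ≤ 2 * (20 * (i + 13) ^ 2) := by
        ring_nf
        omega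
      exact e2.trans (Nat.mul_le_mul_left 2 ih)
  omega

/-- From `C ≤ |Y| p^n` to `C 2^(n-1) ≤ p |Y|`. -/
theorem pow_bound {p y C : ℝ} (hp : 0 < p) (hp2 : p ≤ 1 / 2) (hy : 0 ≤ y) {n : ℕ} (hn : 1 ≤ n)
    (h : C ≤ y * p ^ n) : C * 2 ^ (n - 1) ≤ p * y := by
  have e1 : p ^ n = p * p ^ (n - 1) := by
    rw [← pow_succ']
    congr 1
    omega
  have h9 : p ^ (n - 1) ≤ (1 / 2 : ℝ) ^ (n - 1) := pow_le_pow_left₀ hp.le hp2 _
  have h10 : C ≤ (p * y) * (1 / 2 : ℝ) ^ (n - 1) := by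
    refine h.trans ?_
    rw [e1]
    have h11 : 0 ≤ p * y := by positivity
    have h12 := mul_le_mul_of_nonneg_left h9 h11
    linarith
  have e2 : (1 / 2 : ℝ) ^ (n - 1) = ((2 : ℝ) ^ (n - 1))⁻¹ := by
    rw [one_div, inv_pow]
  rw [e2, ← div_eq_mul_inv, le_div_iff₀ (by positivity)] at h10
  exact h10

/-- `b^3 ≤ p |Y|` -/
theorem cube_le {p y : ℝ} (hp : 0 < p) (hp2 : p ≤ 1 / 2) (hy : 0 ≤ y) {b k n : ℕ} (hb : b ≤ 2 ^ k)
    (hn : 3 * k + 1 ≤ n) (h : 1 ≤ y * p ^ n) : (b : ℝ) ^ 3 ≤ p * y := by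
  have h5 : (b : ℝ) ^ 3 ≤ (2 : ℝ) ^ (3 * k) := by
    have h6 : b ^ 3 ≤ (2 ^ k) ^ 3 := Nat.pow_le_pow_left hb 3
    rw [← pow_mul, mul_comm k 3] at h6
    exact_mod_cast h6
  have h7 : (2 : ℝ) ^ (3 * k) ≤ 2 ^ (n - 1) := pow_le_pow_right₀ (by norm_num) (by omega)
  have h10 := pow_bound hp hp2 hy (by omega) h
  rw [one_mul] at h10
  exact (h5.trans h7).trans h10

/-- The constant of the iteration. -/
noncomputable def M0 : ℝ := 96

theorem claim (t : ℕ) : 2 ≤ t → ∀ p : ℝ, 0 < p → p ≤ 1 / 2 →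
    ∀ (α β : Type) (R : α → β → Prop) (X : Finset α) (Y : Finset β),
    p * (X.card : ℝ) * (Y.card : ℝ) ≤ ∑ x ∈ X, (dg R Y x : ℝ) →
    M0 * (2 - 1 / (Nat.clog 2 t : ℝ)) ≤ (X.card : ℝ) * p ^ t →
    M0 * (2 - 1 / (Nat.clog 2 t : ℝ)) ≤ (Y.card : ℝ) * p ^ (4 * Nat.clog 2 t) →
    Has R X Y (4 * Nat.clog 2 t) t := by
  induction t using Nat.strong_induction_on with
  | _ t ih =>
    intro ht2 p hp hp2 α β R X Y hd hX hY
    obtain ⟨k, hkdef⟩ : ∃ k, k = Nat.clog 2 t := ⟨_, rfl⟩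
    rw [← hkdef] at hX hY ⊢
    have hk1 : 1 ≤ k := by
      rw [hkdef]
      exact Nat.clog_pos (by norm_num) ht2
    have hM0 : M0 = 96 := rfl
    have hkR : (1 : ℝ) ≤ (k : ℝ) := by exact_mod_cast hk1
    have hk0 : (0 : ℝ) < (k : ℝ) := by linarith
    have hinv : 1 / (k : ℝ) ≤ 1 := by
      rw [div_le_one hk0]
      exact hkR
    have hMk : M0 ≤ M0 * (2 - 1 / (k : ℝ)) := by
      rw [hM0]
      linarith
    by_cases ht : t ≤ 4096
    · have hk12 : k ≤ 12 := by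
        rw [hkdef]
        refine (Nat.clog_mono_right 2 ht).trans ?_
        have : Nat.clog 2 4096 = 12 := by
          rw [show 4096 = 2 ^ 12 by norm_num]
          exact Nat.clog_pow 2 12 (by norm_num)
        omega
      have f1 : t ≤ 2 ^ k := by
        rw [hkdef]
        exact Nat.le_pow_clog (by norm_num) _
      apply base R X Y p hp (by linarith) (4 * k) t ht2 _ hd
      · refine le_trans ?_ (hMk.trans hX)
        have h1 : ((4 * k : ℕ) : ℝ) ≤ 48 := by exact_mod_cast (by omega : 4 * k ≤ 48)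
        rw [hM0]
        linarith
      · have h2 := pow_bound hp hp2 (Nat.cast_nonneg _) (show 1 ≤ 4 * k by omega) (hMk.trans hY)
        refine le_trans ?_ h2
        have h3 : (t : ℝ) ^ 2 ≤ (2 : ℝ) ^ (2 * k) := by
          have h6 : t ^ 2 ≤ (2 ^ k) ^ 2 := Nat.pow_le_pow_left f1 2
          rw [← pow_mul, mul_comm k 2] at h6
          exact_mod_cast h6
        have h7 : (2 : ℝ) ^ (2 * k) ≤ 2 ^ (4 * k - 1) := pow_le_pow_right₀ (by norm_num) (by omega)
        have h8 : (0 : ℝ) ≤ 2 ^ (4 * k - 1) := by positivity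
        rw [hM0]
        linarith
    · rw [not_le] at ht
      obtain ⟨f1, f2, f3⟩ := clog_facts t ht
      rw [← hkdef] at f1 f2 f3
      have f4 : 13 * k ≤ k ^ 2 := by nlinarith
      -- the next index
      obtain ⟨j, hj⟩ : ∃ j, j = Nat.clog 2 (4 * k) := ⟨_, rfl⟩
      have hj1 : 1 ≤ j := by
        rw [hj]
        exact Nat.clog_pos (by norm_num) (by omega)
      have hj2 : 2 ^ (j - 1) < 4 * k := by
        rw [hj]
        exact Nat.pow_pred_clog_lt_self (by norm_num) (by omega)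
      have hj3 : 4 * j ≤ 2 * k := by
        -- `j ≤ k / 2`
        obtain ⟨i, rfl⟩ : ∃ i, j = i + 1 := ⟨j - 1, by omega⟩
        rw [Nat.add_sub_cancel] at hj2
        by_cases hi : i ≤ 5
        · omega
        · obtain ⟨m, rfl⟩ : ∃ m, i = m + 6 := ⟨i - 6, by omega⟩
          have h5 : 8 * (m + 7) ≤ 2 ^ (m + 6) := by
            clear hi hj1 hj hj2
            induction m with
            | zero => norm_num
            | succ m ih2 =>
              have e1 : 2 ^ (m + 1 + 6) = 2 * 2 ^ (m + 6) := by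
                rw [show m + 1 + 6 = (m + 6) + 1 by ring, pow_succ]
                ring
              rw [e1]
              omega
          omega
      obtain ⟨b, hb⟩ : ∃ b, t = b + 4 * j := ⟨t - 4 * j, by omega⟩
      have hb8 : 18 * k ^ 2 ≤ b := by omega
      have hb2 : 2 ≤ b := by omega
      have hbR : (2 : ℝ) ≤ (b : ℝ) := by exact_mod_cast hb2
      have hb0 : (0 : ℝ) < (b : ℝ) := by linarith
      have hb3 : (b : ℝ) ^ 3 ≤ p * (Y.card : ℝ) := by
        apply cube_le hp hp2 (Nat.cast_nonneg _) (show b ≤ 2 ^ k by omega)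
          (show 3 * k + 1 ≤ 4 * k by omega)
        linarith
      obtain ⟨X', Y', hd', hX', hY', hglue⟩ := step1 R X Y p hp (by linarith) b hb2 hb3 hd
      obtain ⟨p', hp'⟩ : ∃ p', p' = p * (1 - 2 / (b : ℝ)) := ⟨_, rfl⟩
      rw [← hp'] at hd' hX' hY'
      have hb16 : (16 : ℝ) ≤ (b : ℝ) := by
        have : 16 ≤ b := by omega
        exact_mod_cast this
      have h2b : 0 < 1 - 2 / (b : ℝ) := by
        have : 2 / (b : ℝ) < 1 := by
          rw [div_lt_one hb0]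
          linarith
        linarith
      have hp'0 : 0 < p' := by
        rw [hp']
        exact mul_pos hp h2b
      have hp'2 : p' ≤ 1 / 2 := by
        rw [hp']
        have h5 : 0 ≤ 2 / (b : ℝ) := by positivity
        nlinarith
      -- losses
      have hjR : (1 : ℝ) ≤ (j : ℝ) := by exact_mod_cast hj1
      have hj0 : (0 : ℝ) < (j : ℝ) := by linarith
      have hkR13 : (13 : ℝ) ≤ (k : ℝ) := by exact_mod_cast f3
      have hjk : 2 * (j : ℝ) ≤ k := by
        have : 2 * j ≤ k := by omega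
        exact_mod_cast this
      have hloss : M0 * (2 - 1 / (j : ℝ)) ≤ (1 - 9 * (k : ℝ) / b) * (M0 * (2 - 1 / (k : ℝ))) := by
        have h5 : 9 * (k : ℝ) / b ≤ 1 / 2 * (1 / k) := by
          rw [← mul_div_mul_comm, mul_one, div_le_div_iff₀ hb0 (by positivity)]
          have h6 : (18 : ℝ) * (k : ℝ) ^ 2 ≤ b := by exact_mod_cast hb8
          nlinarith
        have h7 : 2 * (1 / (k : ℝ)) ≤ 1 / j := by
          rw [mul_one_div, div_le_div_iff₀ hk0 hj0]
          linarith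
        have h8 : 0 ≤ 1 / (k : ℝ) := by positivity
        have h9 : 2 - 1 / (j : ℝ) ≤ (1 - 9 * (k : ℝ) / b) * (2 - 1 / (k : ℝ)) := by
          have h10 : (1 - 1 / 2 * (1 / (k : ℝ))) * (2 - 1 / (k : ℝ)) ≤
              (1 - 9 * (k : ℝ) / b) * (2 - 1 / (k : ℝ)) :=
            mul_le_mul_of_nonneg_right (by linarith) (by linarith)
          refine le_trans ?_ h10
          nlinarith
        have h11 := mul_le_mul_of_nonneg_left h9 (show 0 ≤ M0 by rw [hM0]; norm_num)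
        linarith
      have hMk0 : 0 ≤ M0 * (2 - 1 / (k : ℝ)) := by
        rw [hM0] at hMk ⊢
        linarith
      have h1b : 0 ≤ 1 - 1 / (b : ℝ) := by
        have : 1 / (b : ℝ) ≤ 1 := by
          rw [div_le_one hb0]
          linarith
        linarith
      have hgen : ∀ n : ℕ, n ≤ 4 * k → ∀ z : ℝ, M0 * (2 - 1 / (k : ℝ)) ≤ z →
          M0 * (2 - 1 / (j : ℝ)) ≤ (1 - 1 / (b : ℝ)) * (1 - 2 / (b : ℝ)) ^ n * z := by
        intro n hn z hz
        have h5 := loss (b : ℝ) hbR n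
        have h6 : (2 * (n : ℝ) + 1) / (b : ℝ) ≤ 9 * (k : ℝ) / b := by
          apply div_le_div_of_nonneg_right _ hb0.le
          have h7 : (n : ℝ) ≤ 4 * k := by exact_mod_cast hn
          linarith
        have h7 : (1 - 9 * (k : ℝ) / b) ≤ (1 - 1 / (b : ℝ)) * (1 - 2 / (b : ℝ)) ^ n := by
          linarith
        have h9 : 0 ≤ (1 - 1 / (b : ℝ)) * (1 - 2 / (b : ℝ)) ^ n := by positivity
        calc M0 * (2 - 1 / (j : ℝ)) ≤ (1 - 9 * (k : ℝ) / b) * (M0 * (2 - 1 / (k : ℝ))) := hloss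
          _ ≤ ((1 - 1 / (b : ℝ)) * (1 - 2 / (b : ℝ)) ^ n) * (M0 * (2 - 1 / (k : ℝ))) :=
            mul_le_mul_of_nonneg_right h7 hMk0
          _ ≤ ((1 - 1 / (b : ℝ)) * (1 - 2 / (b : ℝ)) ^ n) * z := mul_le_mul_of_nonneg_left hz h9
      have hXlow : M0 * (2 - 1 / (j : ℝ)) ≤ (X'.card : ℝ) * p' ^ (4 * j) := by
        refine le_trans (hgen (4 * j) (by omega) _ ?_) (hX' (4 * j))
        rw [add_comm (4 * j) b, ← hb]
        exact hX
      have hYlow : M0 * (2 - 1 / (j : ℝ)) ≤ (Y'.card : ℝ) * p' ^ (4 * k) :=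
        le_trans (hgen (4 * k) le_rfl _ hY) (hY' (4 * k))
      -- induction for the transposed relation
      have hd'' : p' * (Y'.card : ℝ) * (X'.card : ℝ) ≤
          ∑ y ∈ Y', (dg (fun (y : β) (x : α) => R x y) X' y : ℝ) := by
        have h5 := dg_swap R X' Y'
        have h6 : ∑ x ∈ X', (dg R Y' x : ℝ) =
            ∑ y ∈ Y', (dg (fun (y : β) (x : α) => R x y) X' y : ℝ) := by exact_mod_cast h5
        rw [← h6]
        linarith
      have hrec := ih (4 * k) (by omega) (by omega) p' hp'0 hp'2 β α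
        (fun (y : β) (x : α) => R x y) Y' X' hd''
      rw [← hj] at hrec
      have hhas : Has R X' Y' (4 * k) (4 * j) := (hrec hYlow hXlow).transpose
      have hfin := hglue (4 * k) (4 * j) hhas
      rw [add_comm (4 * j) b, ← hb] at hfin
      exact hfin

/-- `(1 - 1/b) (1 - 2/b)^l` is bounded below for `l` slightly larger than `b` -/
theorem const_loss (b l : ℕ) (hb : 32 ≤ b) (hl : 64 * l ≤ 65 * b) :
    (1 / 2 : ℝ) ^ 6 ≤ (1 - 1 / (b : ℝ)) * (1 - 2 / (b : ℝ)) ^ l := by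
  have hbR : (32 : ℝ) ≤ (b : ℝ) := by exact_mod_cast hb
  have hb0 : (0 : ℝ) < (b : ℝ) := by linarith
  obtain ⟨n, hn⟩ : ∃ n, n = b / 4 := ⟨_, rfl⟩
  have h1 : 1 / 2 ≤ 1 - 1 / (b : ℝ) := by
    have : 1 / (b : ℝ) ≤ 1 / 2 := one_div_le_one_div_of_le (by norm_num) (by linarith)
    linarith
  have h2 : 0 ≤ 1 - 2 / (b : ℝ) := by
    have : 2 / (b : ℝ) ≤ 1 := by
      rw [div_le_one hb0]
      linarith
    linarith
  have h3 : (1 / 2 : ℝ) ≤ (1 - 2 / (b : ℝ)) ^ n := by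
    have h4 : -2 ≤ -(2 / (b : ℝ)) := by linarith
    have h5 := one_add_mul_le_pow h4 n
    have e1 : 1 + -(2 / (b : ℝ)) = 1 - 2 / (b : ℝ) := by ring
    rw [e1] at h5
    have h6 : (n : ℝ) * (2 / (b : ℝ)) ≤ 1 / 2 := by
      have h7 : 4 * (n : ℝ) ≤ b := by
        have : 4 * n ≤ b := by omega
        exact_mod_cast this
      rw [← mul_div_assoc, div_le_iff₀ hb0]
      linarith
    linarith
  have h8 : (1 - 2 / (b : ℝ)) ^ (n * 5) ≤ (1 - 2 / (b : ℝ)) ^ l := by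
    apply pow_le_pow_of_le_one h2
    · have : 0 ≤ 2 / (b : ℝ) := by positivity
      linarith
    · omega
  rw [pow_mul] at h8
  have h9 : (1 / 2 : ℝ) ^ 5 ≤ ((1 - 2 / (b : ℝ)) ^ n) ^ 5 := pow_le_pow_left₀ (by norm_num) h3 5
  calc (1 / 2 : ℝ) ^ 6 = 1 / 2 * (1 / 2) ^ 5 := by norm_num
    _ ≤ (1 - 1 / (b : ℝ)) * (1 - 2 / (b : ℝ)) ^ l :=
      mul_le_mul h1 (h9.trans h8) (by norm_num) (by linarith)

/-- Bipartite graphs of density at least `p ≤ 1/2` with `|X| p^l, |Y| p^l ≥ 12288` contain `K_{l,l}`. -/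
theorem bip {α β : Type} (R : α → β → Prop) (X : Finset α) (Y : Finset β) (p : ℝ) (hp : 0 < p)
    (hp2 : p ≤ 1 / 2) (l : ℕ) (hl : 2 ≤ l)
    (hd : p * (X.card : ℝ) * (Y.card : ℝ) ≤ ∑ x ∈ X, (dg R Y x : ℝ))
    (hX : (12288 : ℝ) ≤ (X.card : ℝ) * p ^ l) (hY : (12288 : ℝ) ≤ (Y.card : ℝ) * p ^ l) :
    Has R X Y l l := by
  by_cases hl1 : l ≤ 4096
  · have h1 : (l : ℝ) ≤ 4096 := by exact_mod_cast hl1
    have h3 : (0 : ℝ) ≤ (l : ℝ) := Nat.cast_nonneg l
    apply base R X Y p hp (by linarith) l l hl _ hd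
    · linarith
    · have h2 := pow_bound hp hp2 (Nat.cast_nonneg _) (show 1 ≤ l by omega) hY
      refine le_trans ?_ h2
      have h4 : (l : ℝ) ≤ 2 ^ (l - 1) := by
        have h5 : l ≤ 2 ^ (l - 1) := by
          have h6 : l - 1 < 2 ^ (l - 1) := Nat.lt_two_pow_self
          omega
        exact_mod_cast h5
      nlinarith
  · rw [not_le] at hl1
    obtain ⟨f1, f2, f3⟩ := clog_facts l hl1
    obtain ⟨k, hkdef⟩ : ∃ k, k = Nat.clog 2 l := ⟨_, rfl⟩
    rw [← hkdef] at f1 f2 f3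
    have f4 : 13 * k ≤ k ^ 2 := by nlinarith
    have hM0 : M0 = 96 := rfl
    have hk0 : (0 : ℝ) < (k : ℝ) := by
      have : 0 < k := by omega
      exact_mod_cast this
    obtain ⟨b, hb⟩ : ∃ b, l = b + 4 * k := ⟨l - 4 * k, by omega⟩
    have hb2 : 2 ≤ b := by omega
    have hbR : (2 : ℝ) ≤ (b : ℝ) := by exact_mod_cast hb2
    have hb0 : (0 : ℝ) < (b : ℝ) := by linarith
    have hb3 : (b : ℝ) ^ 3 ≤ p * (Y.card : ℝ) := by
      apply cube_le hp hp2 (Nat.cast_nonneg _) (show b ≤ 2 ^ k by omega)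
        (show 3 * k + 1 ≤ l by omega)
      linarith
    obtain ⟨X', Y', hd', hX', hY', hglue⟩ := step1 R X Y p hp (by linarith) b hb2 hb3 hd
    obtain ⟨p', hp'⟩ : ∃ p', p' = p * (1 - 2 / (b : ℝ)) := ⟨_, rfl⟩
    rw [← hp'] at hd' hX' hY'
    have hb16 : (16 : ℝ) ≤ (b : ℝ) := by
      have : 16 ≤ b := by omega
      exact_mod_cast this
    have h2b : 0 < 1 - 2 / (b : ℝ) := by
      have : 2 / (b : ℝ) < 1 := by
        rw [div_lt_one hb0]
        linarith
      linarith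
    have hp'0 : 0 < p' := by
      rw [hp']
      exact mul_pos hp h2b
    have hp'2 : p' ≤ 1 / 2 := by
      rw [hp']
      have h5 : 0 ≤ 2 / (b : ℝ) := by positivity
      nlinarith
    have hgen : ∀ n : ℕ, 64 * n ≤ 65 * b → ∀ z : ℝ, (12288 : ℝ) ≤ z →
        M0 * (2 - 1 / (k : ℝ)) ≤ (1 - 1 / (b : ℝ)) * (1 - 2 / (b : ℝ)) ^ n * z := by
      intro n hn z hz
      have h5 := const_loss b n (by omega) hn
      have h6 : (1 / 2 : ℝ) ^ 6 * 12288 ≤ (1 - 1 / (b : ℝ)) * (1 - 2 / (b : ℝ)) ^ n * z :=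
        mul_le_mul h5 hz (by norm_num) (le_trans (by norm_num) h5)
      refine le_trans ?_ h6
      have h7 : 0 ≤ 1 / (k : ℝ) := by positivity
      have e3 : (1 / 2 : ℝ) ^ 6 * 12288 = 192 := by norm_num
      rw [hM0, e3]
      linarith
    have hXlow : M0 * (2 - 1 / (k : ℝ)) ≤ (X'.card : ℝ) * p' ^ (4 * k) := by
      refine le_trans (hgen (4 * k) (by omega) _ ?_) (hX' (4 * k))
      rw [add_comm (4 * k) b, ← hb]
      exact hX
    have hYlow : M0 * (2 - 1 / (k : ℝ)) ≤ (Y'.card : ℝ) * p' ^ l :=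
      le_trans (hgen l (by omega) _ hY) (hY' l)
    have hd'' : p' * (Y'.card : ℝ) * (X'.card : ℝ) ≤
        ∑ y ∈ Y', (dg (fun (y : β) (x : α) => R x y) X' y : ℝ) := by
      have h5 := dg_swap R X' Y'
      have h6 : ∑ x ∈ X', (dg R Y' x : ℝ) =
          ∑ y ∈ Y', (dg (fun (y : β) (x : α) => R x y) X' y : ℝ) := by exact_mod_cast h5
      rw [← h6]
      linarith
    have hrec := claim l hl p' hp'0 hp'2 β α (fun (y : β) (x : α) => R x y) Y' X' hd''
    rw [← hkdef] at hrec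
    have hhas : Has R X' Y' l (4 * k) := (hrec hYlow hXlow).transpose
    have hfin := hglue l (4 * k) hhas
    rw [add_comm (4 * k) b, ← hb] at hfin
    exact hfin

end H43B
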