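import Mathlib
import Pool.Agent.Lib.H43B.Main

set_option autoImplicit false

/-!
# H43B: graphs with `⌊n²/4⌋` edges
-/

namespace H43B

open Finset

/-- The graph `G` contains `K(l,l)`: disjoint sets `X`, `Y` of `l` vertices each, completely joined. -/
def ContainsK {V : Type} (G : SimpleGraph V) (l : ℕ) : Prop :=
  ∃ X Y : Finset V, X.card = l ∧ Y.card = l ∧ Disjoint X Y ∧ ∀ x ∈ X, ∀ y ∈ Y, G.Adj x y

/-- All graphs on `n` vertices with exactly `⌊n²/4⌋` edges contain `K(l,l)`. -/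
def Forced (n l : ℕ) : Prop :=
  ∀ G : SimpleGraph (Fin n), G.edgeSet.ncard = n ^ 2 / 4 → ContainsK G l

/-- `∑ deg = 2 e` -/
theorem sum_dg {n : ℕ} (G : SimpleGraph (Fin n)) :
    ∑ x ∈ (Finset.univ : Finset (Fin n)), dg G.Adj Finset.univ x = 2 * G.edgeSet.ncard := by
  classical
  have h1 := G.sum_degrees_eq_twice_card_edges
  have h2 : G.edgeSet.ncard = G.edgeFinset.card := by
    rw [← SimpleGraph.coe_edgeFinset, Set.ncard_coe_finset]
  rw [h2, ← h1]
  refine Finset.sum_congr rfl fun x _ => ?_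
  unfold dg
  rw [← SimpleGraph.card_neighborFinset_eq_degree, SimpleGraph.neighborFinset_eq_filter]

theorem forced {n l : ℕ} (hn : 2 ≤ n) (hl : 2 ≤ l) (h : (2 : ℝ) ^ l * 16384 ≤ n) :
    Forced n l := by
  intro G hG
  have hnR : (2 : ℝ) ≤ (n : ℝ) := by exact_mod_cast hn
  have hn0 : (0 : ℝ) < (n : ℝ) := by linarith
  obtain ⟨p, hp⟩ : ∃ p : ℝ, p = 1 / 2 * (1 - 1 / (n : ℝ) ^ 2) := ⟨_, rfl⟩
  have hn2 : 1 / (n : ℝ) ^ 2 ≤ 1 / 4 := by
    apply one_div_le_one_div_of_le (by norm_num)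
    nlinarith
  have hn20 : 0 < 1 / (n : ℝ) ^ 2 := by positivity
  have hp0 : 0 < p := by
    rw [hp]
    linarith
  have hp2 : p ≤ 1 / 2 := by
    rw [hp]
    linarith
  have hsum := sum_dg G
  rw [hG] at hsum
  have hd : p * ((Finset.univ : Finset (Fin n)).card : ℝ) * ((Finset.univ : Finset (Fin n)).card : ℝ) ≤
      ∑ x ∈ (Finset.univ : Finset (Fin n)), (dg G.Adj Finset.univ x : ℝ) := by
    have h1 : ∑ x ∈ (Finset.univ : Finset (Fin n)), (dg G.Adj Finset.univ x : ℝ) =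
        ((2 * (n ^ 2 / 4) : ℕ) : ℝ) := by
      rw [← hsum, Nat.cast_sum]
    rw [h1, Finset.card_univ, Fintype.card_fin]
    have h2 : n ^ 2 ≤ 4 * (n ^ 2 / 4) + 1 := by
      rcases Nat.even_or_odd n with ⟨m, hm⟩ | ⟨m, hm⟩
      · have e1 : n ^ 2 = 4 * m ^ 2 := by
          rw [hm]
          ring
        omega
      · have e1 : n ^ 2 = 4 * (m ^ 2 + m) + 1 := by
          rw [hm]
          ring
        omega
    have h3 : (n : ℝ) ^ 2 ≤ 2 * ((2 * (n ^ 2 / 4) : ℕ) : ℝ) + 1 := by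
      have h4 : n ^ 2 ≤ 2 * (2 * (n ^ 2 / 4)) + 1 := by omega
      exact_mod_cast h4
    have e2 : p * (n : ℝ) * (n : ℝ) = 1 / 2 * ((n : ℝ) ^ 2 - 1) := by
      rw [hp]
      field_simp
    rw [e2]
    linarith
  -- the size condition
  have hln : 4 * l ≤ n := by
    have h1 : (l : ℝ) + 1 ≤ 2 ^ l := by
      have h2 : l + 1 ≤ 2 ^ l := Nat.succ_le_of_lt Nat.lt_two_pow_self
      exact_mod_cast h2
    have h3 : (4 * l : ℝ) ≤ n := by
      have : (0 : ℝ) ≤ l := Nat.cast_nonneg l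
      linarith
    exact_mod_cast h3
  have hX : (12288 : ℝ) ≤ ((Finset.univ : Finset (Fin n)).card : ℝ) * p ^ l := by
    rw [Finset.card_univ, Fintype.card_fin, hp, mul_pow]
    have h1 : (3 : ℝ) / 4 ≤ (1 - 1 / (n : ℝ) ^ 2) ^ l := by
      have h2 : -2 ≤ -(1 / (n : ℝ) ^ 2) := by linarith
      have h3 := one_add_mul_le_pow h2 l
      have e1 : 1 + -(1 / (n : ℝ) ^ 2) = 1 - 1 / (n : ℝ) ^ 2 := by ring
      rw [e1] at h3
      have h4 : (l : ℝ) * (1 / (n : ℝ) ^ 2) ≤ 1 / 4 := by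
        rw [mul_one_div, div_le_iff₀ (by positivity)]
        have h5 : 4 * (l : ℝ) ≤ n := by exact_mod_cast hln
        nlinarith
      linarith
    have h6 : (16384 : ℝ) ≤ (n : ℝ) * (1 / 2) ^ l := by
      rw [one_div, inv_pow, ← div_eq_mul_inv, le_div_iff₀ (by positivity)]
      linarith
    have h7 : (0 : ℝ) ≤ (n : ℝ) * (1 / 2) ^ l := by positivity
    have h8 := mul_le_mul_of_nonneg_left h1 h7
    linarith
  obtain ⟨A, -, B, -, hA, hB, hAB⟩ := bip G.Adj Finset.univ Finset.univ p hp0 hp2 l hl hd hX hX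
  refine ⟨A, B, hA, hB, ?_, hAB⟩
  rw [Finset.disjoint_left]
  intro x hx hx'
  exact G.loopless.irrefl x (hAB x hx x hx')

theorem forced_one {n : ℕ} (hn : 2 ≤ n) : Forced n 1 := by
  classical
  intro G hG
  have h1 : 0 < G.edgeSet.ncard := by
    rw [hG]
    have : 4 ≤ n ^ 2 := by nlinarith
    omega
  have h2 : G.edgeSet.Nonempty := Set.nonempty_of_ncard_ne_zero h1.ne'
  obtain ⟨e, he⟩ := h2
  induction e using Sym2.ind with
  | _ x y =>
    rw [SimpleGraph.mem_edgeSet] at he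
    refine ⟨{x}, {y}, Finset.card_singleton x, Finset.card_singleton y, ?_, ?_⟩
    · rw [Finset.disjoint_singleton]
      exact he.ne
    · intro a ha b hb
      rw [Finset.mem_singleton] at ha hb
      rw [ha, hb]
      exact he

/-- There is a graph with exactly `⌊n²/4⌋` edges. -/
theorem exists_graph (n : ℕ) : ∃ G : SimpleGraph (Fin n), G.edgeSet.ncard = n ^ 2 / 4 := by
  classical
  have h1 : ((⊤ : SimpleGraph (Fin n)).edgeFinset).card = n.choose 2 := by
    rw [SimpleGraph.card_edgeFinset_top_eq_card_choose_two, Fintype.card_fin]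
  have h2 : n ^ 2 / 4 ≤ n.choose 2 := by
    rw [Nat.choose_two_right]
    rcases Nat.even_or_odd n with ⟨m, hm⟩ | ⟨m, hm⟩
    · subst hm
      have e1 : (m + m) ^ 2 / 4 = m ^ 2 := by
        have : (m + m) ^ 2 = 4 * m ^ 2 := by ring
        omega
      rw [e1]
      rcases Nat.eq_zero_or_pos m with rfl | h0
      · norm_num
      · obtain ⟨k, rfl⟩ : ∃ k, m = k + 1 := ⟨m - 1, by omega⟩
        have e2 : (k + 1 + (k + 1)) * (k + 1 + (k + 1) - 1) / 2 = (k + 1) * (2 * k + 1) := by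
          have : (k + 1 + (k + 1)) * (k + 1 + (k + 1) - 1) = 2 * ((k + 1) * (2 * k + 1)) := by
            have h3 : k + 1 + (k + 1) - 1 = 2 * k + 1 := by omega
            rw [h3]
            ring
          omega
        rw [e2]
        nlinarith
    · subst hm
      have e1 : (2 * m + 1) ^ 2 / 4 = m ^ 2 + m := by
        have : (2 * m + 1) ^ 2 = 4 * (m ^ 2 + m) + 1 := by ring
        omega
      rw [e1]
      have e2 : (2 * m + 1) * (2 * m + 1 - 1) / 2 = (2 * m + 1) * m := by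
        have : (2 * m + 1) * (2 * m + 1 - 1) = 2 * ((2 * m + 1) * m) := by
          rw [Nat.add_sub_cancel]
          ring
        omega
      rw [e2]
      nlinarith
  rw [← h1] at h2
  obtain ⟨S, hS, hSc⟩ := Finset.exists_subset_card_eq h2
  refine ⟨SimpleGraph.fromEdgeSet (S : Set (Sym2 (Fin n))), ?_⟩
  have h3 : (SimpleGraph.fromEdgeSet (S : Set (Sym2 (Fin n)))).edgeSet = (S : Set (Sym2 (Fin n))) := by
    rw [SimpleGraph.edgeSet_fromEdgeSet]
    ext e
    rw [Set.mem_sdiff]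
    constructor
    · exact fun h => h.1
    · intro h
      refine ⟨h, ?_⟩
      have h4 := hS h
      rw [SimpleGraph.mem_edgeFinset] at h4
      exact SimpleGraph.not_isDiag_of_mem_edgeSet _ h4
  rw [h3, Set.ncard_coe_finset, hSc]

theorem forced_zero (n : ℕ) : Forced n 0 := by
  intro G _
  exact ⟨∅, ∅, rfl, rfl, disjoint_bot_left, fun x hx => absurd hx (Finset.notMem_empty x)⟩

theorem forced_le {n l : ℕ} (h : Forced n l) : l ≤ n := by
  obtain ⟨G, hG⟩ := exists_graph n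
  obtain ⟨X, Y, hX, -⟩ := h G hG
  rw [← hX]
  exact (Finset.card_le_univ X).trans (Fintype.card_fin n).le

theorem main (n : ℕ) (hn : 2 ≤ n) : ∃ l : ℕ, IsGreatest {r : ℕ | Forced n r} l ∧
    Real.logb 2 n - 15 ≤ l := by
  classical
  have hbdd : BddAbove {r : ℕ | Forced n r} := ⟨n, fun r hr => forced_le hr⟩
  have hne : {r : ℕ | Forced n r}.Nonempty := ⟨0, forced_zero n⟩
  refine ⟨sSup {r : ℕ | Forced n r}, ⟨Nat.sSup_mem hne hbdd, fun r hr => le_csSup hbdd hr⟩, ?_⟩
  have hnR : (2 : ℝ) ≤ (n : ℝ) := by exact_mod_cast hn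
  have hn0 : (0 : ℝ) < (n : ℝ) := by linarith
  by_cases h : Real.logb 2 n ≤ 15
  · have : (0 : ℝ) ≤ ((sSup {r : ℕ | Forced n r} : ℕ) : ℝ) := Nat.cast_nonneg _
    linarith
  · rw [not_le] at h
    obtain ⟨r, hr⟩ : ∃ r : ℕ, r = ⌊Real.logb 2 n - 14⌋₊ := ⟨_, rfl⟩
    have hr1 : (r : ℝ) ≤ Real.logb 2 n - 14 := by
      rw [hr]
      exact Nat.floor_le (by linarith)
    have hr2 : Real.logb 2 n - 14 < r + 1 := by
      rw [hr]
      exact Nat.lt_floor_add_one _
    have hf : Forced n r := by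
      rcases Nat.lt_or_ge r 2 with h2 | h2
      · interval_cases r
        · exact forced_zero n
        · exact forced_one hn
      · apply forced hn h2
        have h3 : (2 : ℝ) ^ ((r : ℝ) + 14) ≤ (2 : ℝ) ^ (Real.logb 2 n) :=
          Real.rpow_le_rpow_of_exponent_le (by norm_num) (by linarith)
        rw [Real.rpow_logb (by norm_num) (by norm_num) hn0, Real.rpow_add (by norm_num),
          Real.rpow_natCast] at h3
        have e1 : (2 : ℝ) ^ (14 : ℝ) = 2 ^ 14 := by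
          exact_mod_cast Real.rpow_natCast 2 14
        rw [e1] at h3
        refine le_trans (le_of_eq ?_) h3
        norm_num
    have h4 : (r : ℝ) ≤ ((sSup {r : ℕ | Forced n r} : ℕ) : ℝ) := by
      exact_mod_cast le_csSup hbdd hf
    linarith

end H43B
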